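import Mathlib
import Pool.Agent.MP_7b4824_gt.DirectSum

set_option autoImplicit false

namespace Pool.Agent.Results.MP_7b4824_gt.DirectSumSuitable

universe u v

/-- Every subgroup of finitely supported elements of the product with the topology of tails has a
generating suitable set. -/
theorem result (τ : Cardinal.{v}) (hτ : Cardinal.aleph0 ≤ τ)
    (G : Set.Iio τ.ord → Type u) [∀ α, Group (G α)]
    [TopologicalSpace (∀ α, G α)] [IsTopologicalGroup (∀ α, G α)]
    (hbasis : (nhds (1 : ∀ α, G α)).HasBasis (fun _ : Set.Iio τ.ord => True)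
      (fun α => {x | ∀ β < α, x β = 1}))
    (H : Subgroup (∀ α, G α)) (hH : ∀ x ∈ H, {α | x α ≠ 1}.Finite) :
    ∃ S : Set H, DiscreteTopology S ∧ IsClosed (S ∪ {1}) ∧ Subgroup.closure S = ⊤ := by
  have hl := Cardinal.isSuccLimit_ord hτ
  have : Nonempty (Set.Iio τ.ord) := ⟨⟨0, hl.bot_lt⟩⟩
  have : NoMaxOrder (Set.Iio τ.ord) :=
    ⟨fun a => ⟨⟨Order.succ a.1, hl.succ_lt a.2⟩, Order.lt_succ a.1⟩⟩
  exact Pool.Agent.MP_7b4824_gt.directSum_suitable hbasis H hH

end Pool.Agent.Results.MP_7b4824_gt.DirectSumSuitable
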