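import Mathlib
import Pool.Agent.MP_7b4824_gt.Topo

set_option autoImplicit false

namespace Pool.Agent.Results.MP_7b4824_gt.NoSuitableSet

universe u

/-- For every family of non-trivial groups indexed by the countable ordinals, the product with
the group topology whose base at the identity is the family of tails has a subgroup `H` of
countably supported elements which has no suitable set. -/
theorem result (G : Set.Iio (Ordinal.omega.{0} 1) → Type u) [∀ α, Group (G α)]
    [∀ α, Nontrivial (G α)] :
    ∃ _ : TopologicalSpace (∀ α, G α), IsTopologicalGroup (∀ α, G α) ∧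
      (nhds (1 : ∀ α, G α)).HasBasis (fun _ : Set.Iio (Ordinal.omega.{0} 1) => True)
        (fun α => {x | ∀ β < α, x β = 1}) ∧
      ∃ H : Subgroup (∀ α, G α), (∀ x ∈ H, {α | x α ≠ 1}.Countable) ∧
        ¬ ∃ S : Set H, DiscreteTopology S ∧ IsClosed (S ∪ {1}) ∧
          Dense (Subgroup.closure S : Set H) := by
  have : Nonempty (Set.Iio (Ordinal.omega.{0} 1)) := ⟨⟨0, Ordinal.omega_pos 1⟩⟩
  obtain ⟨t, h1, h2⟩ := Pool.Agent.MP_7b4824_gt.exists_star_topology G
  exact ⟨t, h1, h2, Pool.Agent.MP_7b4824_gt.no_suitable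
    Pool.Agent.MP_7b4824_gt.omega_one_countable Pool.Agent.MP_7b4824_gt.omega_one_bounded h2⟩

end Pool.Agent.Results.MP_7b4824_gt.NoSuitableSet
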